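import Pool.Agent.H78.HT3

/-!
# The Holmes-Thompson case in dimension three

For a convex body `K` in `ℝ³` let `M = (K - K)/2` be the unit ball of its relative norm and let
`c(K)` be the largest Holmes-Thompson volume (with respect to `M`) of the convex hull of `K` and a
translate of `K` that meets `K`.  The maximum exists, and the least value of `c(K)` over all convex
bodies of `ℝ³` is `16 / π`; it is attained by simplices.

Outline.  Let `V₁ = V(K, K, -K)`.  Some translate gives a hull of volume at least `vol K + V₁`.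
The centrally symmetric body `L` of `ℝ⁴` with the sections `((1+s)/2) K - ((1-s)/2) K`,
`-1 ≤ s ≤ 1`, has the volume `vol K + V₁`, and the volume of its polar body is `4 vol ((K - K)°)`.
So the bound is the symmetric Mahler inequality in dimension four.
-/

set_option autoImplicit false

namespace Pool.Agent.Results.MP_87489e_co.HolmesThompsonDim3

open MeasureTheory Set
open scoped Pointwise

/-- A convex body: a compact convex set with nonempty interior. -/
structure IsConvexBody {d : ℕ} (K : Set (Fin d → ℝ)) : Prop where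
  isCompact : IsCompact K
  convex : Convex ℝ K
  interior_nonempty : (interior K).Nonempty

/-- The unit ball `M = (K - K)/2` of the relative norm of `K`. -/
def relBall {d : ℕ} (K : Set (Fin d → ℝ)) : Set (Fin d → ℝ) := (1 / 2 : ℝ) • (K - K)

/-- The polar body `M° = {y : ⟨x, y⟩ ≤ 1 for all x ∈ M}`. -/
def polarBody {d : ℕ} (M : Set (Fin d → ℝ)) : Set (Fin d → ℝ) := {y | ∀ x ∈ M, ∑ i, x i * y i ≤ 1}

/-- The volume of the Euclidean unit ball of `ℝ ^ d`. -/
noncomputable def kappa (d : ℕ) : ℝ := (volume {x : Fin d → ℝ | ∑ i, x i ^ 2 ≤ 1}).toReal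

/-- The Holmes-Thompson volume `vol(M°) / κ_d * vol(S)` of `S` for the norm with unit ball `M`. -/
noncomputable def htVol {d : ℕ} (M S : Set (Fin d → ℝ)) : ℝ :=
  (volume (polarBody M)).toReal / kappa d * (volume S).toReal

/-- `c` is the maximum of the Holmes-Thompson volumes, in the relative norm of `K`, of the convex
hulls `conv (K ∪ (p + K))` over all `p` for which `p + K` meets `K`. -/
def IsTranslativeConstant {d : ℕ} (K : Set (Fin d → ℝ)) (c : ℝ) : Prop :=
  IsGreatest {r : ℝ | ∃ p : Fin d → ℝ, ((p +ᵥ K) ∩ K).Nonempty ∧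
    r = htVol (relBall K) (convexHull ℝ (K ∪ (p +ᵥ K)))} c

/-- The simplex with vertices `0, e_0, e_1, e_2`. -/
def simplex : Set (Fin 3 → ℝ) := {x | (∀ i, 0 ≤ x i) ∧ ∑ i, x i ≤ 1}

/-- **The Holmes-Thompson case in dimension three.**  For every convex body `K` of `ℝ³` the maximum
`c(K)` exists; the least value of `c(K)` is `16 / π`; the simplex is a convex body with
`c(K) = 16 / π`; and `κ₃ = 4π/3` in the definition of the volume. -/
theorem result :
    (∀ K : Set (Fin 3 → ℝ), IsConvexBody K → ∃ c : ℝ, IsTranslativeConstant K c) ∧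
    IsLeast {c : ℝ | ∃ K : Set (Fin 3 → ℝ), IsConvexBody K ∧ IsTranslativeConstant K c}
      (16 / Real.pi) ∧
    (IsConvexBody simplex ∧ IsTranslativeConstant simplex (16 / Real.pi)) ∧
    kappa 3 = 4 * Real.pi / 3 := by
  obtain ⟨-, ⟨hlow, htet⟩, hcb⟩ := Pool.Agent.H78.HT3.fin
  have hS : IsConvexBody simplex := ⟨hcb.isCompact, hcb.convex, hcb.interior_nonempty⟩
  have hTc : IsTranslativeConstant simplex (16 / Real.pi) := htet
  have hcb' : ∀ K : Set (Fin 3 → ℝ), IsConvexBody K → Pool.Agent.H404R2.TH.CB K :=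
    fun K hK => ⟨hK.isCompact, hK.convex, hK.interior_nonempty⟩
  refine ⟨fun K hK => ?_, ⟨⟨simplex, hS, hTc⟩, ?_⟩, ⟨hS, hTc⟩, Pool.Agent.H404R2.TH.t_KAP⟩
  · obtain ⟨r, hr, -⟩ := hlow K (hcb' K hK)
    exact ⟨r, hr⟩
  · rintro c ⟨K, hK, hc⟩
    obtain ⟨r, hr, hle⟩ := hlow K (hcb' K hK)
    have : c = r := hc.unique hr
    rw [this]
    exact hle

end Pool.Agent.Results.MP_87489e_co.HolmesThompsonDim3
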